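import Pool.Agent.Q273.QP.Stm2
import Pool.Agent.Q273.QP.Sum

/-! Project QP of helper273, job L2FIN: linear polynomials. -/

set_option autoImplicit false

namespace Q26.QP

open Finset MeasureTheory Q273.QP

/-- the set of the real numbers where a linear polynomial is small -/
theorem vol_lin (q s : ℤ) (n : ℕ) (K : ℝ) (hK : 0 ≤ K) (hH : 1 ≤ H2 (q, s)) :
    volume {ξ : ℝ | |ξ| ≤ n ∧ |(q : ℝ) * ξ + s| ≤ K} ≤
      ENNReal.ofReal ((8 * n + 8) * K / H2 (q, s)) := by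
  set H : ℝ := ((H2 (q, s) : ℕ) : ℝ) with hHd
  have hH1 : (1 : ℝ) ≤ H := by
    rw [hHd]
    exact_mod_cast hH
  have hn0 : (0 : ℝ) ≤ n := Nat.cast_nonneg n
  have hqa : |(q : ℝ)| = (q.natAbs : ℝ) := by rw [Nat.cast_natAbs, Int.cast_abs]
  have hsa : |(s : ℝ)| = (s.natAbs : ℝ) := by rw [Nat.cast_natAbs, Int.cast_abs]
  rcases le_or_gt H (|(q : ℝ)| * (2 * n + 2)) with h | h
  · have hq : 0 < |(q : ℝ)| := by
      by_contra hc
      have : |(q : ℝ)| = 0 := le_antisymm (not_lt.1 hc) (abs_nonneg _)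
      rw [this, zero_mul] at h
      linarith
    have hq0 : (q : ℝ) ≠ 0 := abs_pos.1 hq
    have hsub : {ξ : ℝ | |ξ| ≤ n ∧ |(q : ℝ) * ξ + s| ≤ K} ⊆
        Metric.closedBall (-(s : ℝ) / q) (K / |(q : ℝ)|) := by
      rintro ξ ⟨_, h2⟩
      rw [Metric.mem_closedBall, Real.dist_eq, le_div_iff₀ hq, ← abs_mul]
      have e : (ξ - -(s : ℝ) / q) * q = q * ξ + s := by
        field_simp
        ring
      rw [e]
      exact h2
    refine (measure_mono hsub).trans ?_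
    rw [Real.volume_closedBall]
    refine ENNReal.ofReal_le_ofReal ?_
    rw [le_div_iff₀ (by linarith)]
    have e : 2 * (K / |(q : ℝ)|) * H ≤ 2 * (K / |(q : ℝ)|) * (|(q : ℝ)| * (2 * n + 2)) :=
      mul_le_mul_of_nonneg_left h (by positivity)
    refine e.trans ?_
    have e2 : 2 * (K / |(q : ℝ)|) * (|(q : ℝ)| * (2 * n + 2)) = (4 * n + 4) * K := by
      field_simp
      ring
    rw [e2]
    nlinarith
  · have hsH : |(s : ℝ)| = H := by
      rw [hsa, hHd]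
      have h1 : (q.natAbs : ℝ) < H := by
        rw [← hqa]
        have : |(q : ℝ)| * 1 ≤ |(q : ℝ)| * (2 * n + 2) :=
          mul_le_mul_of_nonneg_left (by linarith) (abs_nonneg _)
        linarith
      have h2 : q.natAbs < H2 (q, s) := by
        rw [hHd] at h1
        exact_mod_cast h1
      unfold H2 at h2 ⊢
      simp only at h2 ⊢
      have h3 : max q.natAbs s.natAbs = s.natAbs := by omega
      rw [h3]
    rcases lt_or_ge K (H / 2) with h3 | h3
    · have he : {ξ : ℝ | |ξ| ≤ n ∧ |(q : ℝ) * ξ + s| ≤ K} = ∅ := by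
        rw [Set.eq_empty_iff_forall_notMem]
        rintro ξ ⟨h1, h2⟩
        have h4 : |(s : ℝ)| ≤ |(q : ℝ) * ξ + s| + |(q : ℝ) * ξ| := by
          have := abs_sub ((q : ℝ) * ξ + s) ((q : ℝ) * ξ)
          rwa [add_sub_cancel_left] at this
        rw [abs_mul] at h4
        have h5 : |(q : ℝ)| * |ξ| ≤ |(q : ℝ)| * n := mul_le_mul_of_nonneg_left h1 (abs_nonneg _)
        have h6 := abs_nonneg (q : ℝ)
        nlinarith
      rw [he, measure_empty]
      exact zero_le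
    · have hsub : {ξ : ℝ | |ξ| ≤ n ∧ |(q : ℝ) * ξ + s| ≤ K} ⊆ Metric.closedBall 0 n := by
        rintro ξ ⟨h1, _⟩
        rw [Metric.mem_closedBall, Real.dist_eq, sub_zero]
        exact h1
      refine (measure_mono hsub).trans ?_
      rw [Real.volume_closedBall]
      refine ENNReal.ofReal_le_ofReal ?_
      rw [le_div_iff₀ (by linarith)]
      nlinarith

/-- the index set -/
abbrev Ix (u v u' v' : ℤ) : Type := {x : ℤ × ℤ // IsCoprime x.1 x.2 ∧ Lv u v x ≠ 0 ∧ Lv u' v' x ≠ 0}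

/-- the box -/
noncomputable def bx (X : ℕ) : Finset (ℤ × ℤ) :=
  Finset.Icc (-(X : ℤ)) X ×ˢ Finset.Icc (-(X : ℤ)) X

lemma mem_bx {x : ℤ × ℤ} {X : ℕ} : x ∈ bx X ↔ H2 x ≤ X := by
  unfold bx H2
  rw [mem_product, mem_Icc, mem_Icc]
  omega

lemma hfin2 (u v u' v' : ℤ) (X : ℕ) : {i : Ix u v u' v' | H2 i.1 ≤ X}.Finite := by
  refine Set.Finite.of_finite_image (f := Subtype.val) ?_ Subtype.val_injective.injOn
  refine (bx X).finite_toSet.subset ?_
  rintro _ ⟨i, hi, rfl⟩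
  exact mem_coe.2 (mem_bx.2 hi)

lemma card_hfin2 (u v u' v' : ℤ) (X : ℕ) :
    (hfin2 u v u' v' X).toFinset.card ≤ (X + 4) ^ 4 := by
  classical
  have h1 : (hfin2 u v u' v' X).toFinset.card ≤ (bx X).card := by
    refine Finset.card_le_card_of_injOn Subtype.val ?_ Subtype.val_injective.injOn
    intro i hi
    rw [mem_coe, Set.Finite.mem_toFinset] at hi
    exact mem_coe.2 (mem_bx.2 hi)
  refine h1.trans ?_
  unfold bx
  rw [card_product, Int.card_Icc]
  have h2 : ((X : ℤ) + 1 - -(X : ℤ)).toNat = 2 * X + 1 := by omega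
  rw [h2]
  calc (2 * X + 1) * (2 * X + 1) ≤ (2 * (X + 4)) * (2 * (X + 4)) :=
        Nat.mul_le_mul (by omega) (by omega)
    _ = 4 * (X + 4) ^ 2 := by ring
    _ ≤ (X + 4) ^ 2 * (X + 4) ^ 2 := Nat.mul_le_mul_right _ (by nlinarith)
    _ = (X + 4) ^ 4 := by ring

lemma H2_pos {x : ℤ × ℤ} (h : IsCoprime x.1 x.2) : 1 ≤ H2 x := by
  unfold H2
  by_contra hc
  have h1 : x.1 = 0 := by omega
  have h2 : x.2 = 0 := by omega
  rw [h1, h2] at h
  exact not_isCoprime_zero_zero h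

/-- the weight -/
noncomputable def ww (u v u' v' : ℤ) (x : ℤ × ℤ) : ℝ :=
  1 / ((Rd (Lv u v x).natAbs : ℝ) * Rd (Lv u' v' x).natAbs)

lemma ww_nonneg (u v u' v' : ℤ) (x : ℤ × ℤ) : 0 ≤ ww u v u' v' x := by
  unfold ww
  positivity

/-- the sum of the weights -/
lemma sum_ww (hrad : S_SUMRAD) (u v u' v' : ℤ) (hd : u * v' - u' * v ≠ 0) (ε : ℝ) (hε : 0 < ε) :
    ∃ C : ℝ, 0 ≤ C ∧ ∀ X : ℕ, 1 ≤ X →
      ∑ i ∈ (hfin2 u v u' v' X).toFinset, ww u v u' v' i.1 ≤ C * (X : ℝ) ^ ε := by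
  classical
  obtain ⟨C, hC, hrd⟩ := hrad (ε / 2) (by positivity)
  set c0 : ℕ := u.natAbs + v.natAbs + u'.natAbs + v'.natAbs with hc0
  have hc01 : 1 ≤ c0 := by
    by_contra hc
    have h1 : u = 0 := by omega
    have h2 : v = 0 := by omega
    apply hd
    rw [h1, h2]
    ring
  refine ⟨(2 * C * (c0 : ℝ) ^ (ε / 2)) ^ 2, by positivity, fun X hX => ?_⟩
  set M : ℕ := c0 * X with hM
  have hM1 : 1 ≤ M := Nat.mul_pos hc01 hX
  set F := (hfin2 u v u' v' X).toFinset with hF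
  set S := (Finset.Icc (-(M : ℤ)) M).filter (fun a => a ≠ 0) with hS
  let φ : Ix u v u' v' → ℤ × ℤ := fun i => (Lv u v i.1, Lv u' v' i.1)
  have hbd : ∀ (a b : ℤ) (x : ℤ × ℤ), a.natAbs + b.natAbs ≤ c0 → H2 x ≤ X →
      |Lv a b x| ≤ (M : ℤ) := by
    intro a b x hab hx
    unfold Lv
    unfold H2 at hx
    have h1 : |x.1| ≤ (X : ℤ) := by
      rw [Int.abs_eq_natAbs]
      omega
    have h2 : |x.2| ≤ (X : ℤ) := by
      rw [Int.abs_eq_natAbs]
      omega
    have h3 : |a| + |b| ≤ (c0 : ℤ) := by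
      rw [Int.abs_eq_natAbs, Int.abs_eq_natAbs]
      omega
    have hX0 : (0 : ℤ) ≤ X := Int.natCast_nonneg X
    calc |x.1 * a + x.2 * b| ≤ |x.1 * a| + |x.2 * b| := abs_add_le _ _
      _ = |x.1| * |a| + |x.2| * |b| := by rw [abs_mul, abs_mul]
      _ ≤ X * |a| + X * |b| := add_le_add (mul_le_mul_of_nonneg_right h1 (abs_nonneg _))
          (mul_le_mul_of_nonneg_right h2 (abs_nonneg _))
      _ = (|a| + |b|) * X := by ring
      _ ≤ c0 * X := mul_le_mul_of_nonneg_right h3 hX0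
      _ = (M : ℤ) := by rw [hM]; push_cast; ring
  have hmaps : ∀ i ∈ F, φ i ∈ S ×ˢ S := by
    intro i hi
    rw [hF, Set.Finite.mem_toFinset] at hi
    have hi' : H2 i.1 ≤ X := hi
    have h1 := abs_le.1 (hbd u v i.1 (by omega) hi')
    have h2 := abs_le.1 (hbd u' v' i.1 (by omega) hi')
    rw [mem_product, hS, mem_filter, mem_filter, mem_Icc, mem_Icc]
    exact ⟨⟨h1, i.2.2.1⟩, ⟨h2, i.2.2.2⟩⟩
  have hinj : Set.InjOn φ (F : Set (Ix u v u' v')) := by
    intro i _ i' _ h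
    simp only [φ, Prod.mk.injEq, Lv] at h
    obtain ⟨h1, h2⟩ := h
    have e1 : (u * v' - u' * v) * (i.1.1 - i'.1.1) = 0 := by linear_combination v' * h1 - v * h2
    have e2 : (u * v' - u' * v) * (i.1.2 - i'.1.2) = 0 := by linear_combination u * h2 - u' * h1
    have f1 := (mul_eq_zero.1 e1).resolve_left hd
    have f2 := (mul_eq_zero.1 e2).resolve_left hd
    apply Subtype.ext
    apply Prod.ext
    · omega
    · omega
  let ψ : ℤ × ℤ → ℝ := fun x => 1 / ((Rd x.1.natAbs : ℝ) * Rd x.2.natAbs)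
  have h1 : ∑ i ∈ F, ww u v u' v' i.1 = ∑ x ∈ F.image φ, ψ x := by
    rw [Finset.sum_image hinj]
    rfl
  have h2 : ∑ x ∈ F.image φ, ψ x ≤ ∑ x ∈ S ×ˢ S, ψ x := by
    refine Finset.sum_le_sum_of_subset_of_nonneg ?_ fun x _ _ => by positivity
    intro x hx
    obtain ⟨i, hi, rfl⟩ := Finset.mem_image.1 hx
    exact hmaps i hi
  have h3 : ∑ x ∈ S ×ˢ S, ψ x = (∑ a ∈ S, (1 : ℝ) / Rd a.natAbs) ^ 2 := by
    rw [Finset.sum_product, sq, Finset.sum_mul_sum]
    refine Finset.sum_congr rfl fun a _ => Finset.sum_congr rfl fun b _ => ?_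
    simp only [ψ]
    rw [div_mul_div_comm, one_mul]
  have h4 : ∑ a ∈ S, (1 : ℝ) / Rd a.natAbs ≤ 2 * (C * (M : ℝ) ^ (ε / 2)) := by
    refine (sum_sym M (fun n => (1 : ℝ) / Rd n) fun n => by positivity).trans ?_
    refine mul_le_mul_of_nonneg_left ?_ (by norm_num)
    refine le_trans ?_ (hrd M hM1)
    refine Finset.sum_le_sum fun a ha => ?_
    rw [mem_Icc] at ha
    have h5 : (1 : ℝ) ≤ a.divisors.card := by
      have : 0 < a.divisors.card := Finset.card_pos.2 ⟨1, Nat.one_mem_divisors.2 (by omega)⟩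
      exact_mod_cast this
    exact div_le_div_of_nonneg_right h5 (by positivity)
  have h6 : (0 : ℝ) ≤ ∑ a ∈ S, (1 : ℝ) / Rd a.natAbs := Finset.sum_nonneg fun _ _ => by positivity
  rw [h1]
  refine h2.trans ?_
  rw [h3]
  refine (pow_le_pow_left₀ h6 h4 2).trans (le_of_eq ?_)
  have h7 : (M : ℝ) ^ (ε / 2) = (c0 : ℝ) ^ (ε / 2) * (X : ℝ) ^ (ε / 2) := by
    rw [hM]
    push_cast
    rw [Real.mul_rpow (by positivity) (by positivity)]
  have h8 : ((X : ℝ) ^ (ε / 2)) ^ 2 = (X : ℝ) ^ ε := by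
    rw [← Real.rpow_natCast, ← Real.rpow_mul (by positivity)]
    congr 1
    push_cast
    ring
  rw [h7, ← h8]
  ring

theorem l2fin (hlin : S_LIN) (hrad : S_SUMRAD) (hbc : S_BC) : S_L2fin := by
  classical
  intro _ _ μ _ _ V u v u' v' ε hd hε
  have hpos : ∀ p : Nat.Primes, (0 : ℝ) < (p : ℝ) := fun p => by exact_mod_cast p.2.pos
  have key := hbc μ (Ix u v u' v') V (fun i => H2 i.1) (hfin2 u v u' v')
    (fun i => (H2 i.1 : ℝ) * ww u v u' v' i.1) (fun i ξ => |(i.1.1 : ℝ) * ξ + i.1.2|)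
    (fun i p η => lP p i.1.1 i.1.2 η) (fun _ _ => Set.univ) (ε / 2) (by positivity)
    (fun i => mul_nonneg (Nat.cast_nonneg _) (ww_nonneg _ _ _ _ _)) (fun _ _ => abs_nonneg _)
    (by
      intro i p η
      have : Fact p.1.Prime := ⟨p.2⟩
      unfold lP
      by_cases h : ((i.1.1 : ℤ) : ℤ_[p.1]) * η + (i.1.2 : ℤ) = 0
      · exact ⟨0, Or.inr (by rw [h, norm_zero])⟩
      · exact ⟨_, Or.inl (PadicInt.norm_eq_zpow_neg_valuation h)⟩)
    (by
      obtain ⟨m, hm⟩ := exists_nat_ge ((μ Set.univ).toReal)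
      refine ⟨m + 1, fun i p hp j => ?_⟩
      have h1 := hlin μ {p} i.1.1 i.1.2 i.2.1 (fun _ => j)
      simp only [Finset.mem_singleton, forall_eq, Finset.prod_singleton] at h1
      refine h1.trans ?_
      rw [← ENNReal.ofReal_toReal (measure_ne_top μ Set.univ), ← ENNReal.ofReal_mul
        ENNReal.toReal_nonneg]
      refine ENNReal.ofReal_le_ofReal ?_
      refine mul_le_mul_of_nonneg_right ?_ (zpow_nonneg (hpos p).le _)
      have h2 : (1 : ℝ) ≤ (H2 i.1 : ℝ) + ((m + 1 : ℕ) : ℝ) := by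
        push_cast
        have h3 : (0 : ℝ) ≤ (H2 i.1 : ℝ) := Nat.cast_nonneg _
        have h4 : (0 : ℝ) ≤ m := Nat.cast_nonneg _
        linarith
      calc (μ Set.univ).toReal ≤ m := hm
        _ ≤ (H2 i.1 : ℝ) + ((m + 1 : ℕ) : ℝ) := by
            push_cast
            have h3 : (0 : ℝ) ≤ (H2 i.1 : ℝ) := Nat.cast_nonneg _
            linarith
        _ ≤ _ := le_self_pow₀ h2 (by omega))
    ⟨4, card_hfin2 u v u' v'⟩
    (by
      intro n
      obtain ⟨C, hC, hsum⟩ := sum_ww hrad u v u' v' hd (ε / 4) (by positivity)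
      refine ⟨(μ Set.univ).toReal * ((8 * n + 8) * C), fun k j => ?_⟩
      set PJ : ℝ := ∏ p ∈ V, (p : ℝ) ^ j p with hPJ
      have hPJ0 : 0 < PJ := Finset.prod_pos fun p _ => pow_pos (hpos p) _
      set PI : ℝ := ∏ p ∈ V, (p : ℝ) ^ (-(j p : ℤ)) with hPI
      have hPI0 : 0 < PI := Finset.prod_pos fun p _ => zpow_pos (hpos p) _
      have hPIJ : PJ * PI = 1 := by
        rw [hPJ, hPI, ← Finset.prod_mul_distrib]
        refine Finset.prod_eq_one fun p _ => ?_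
        rw [← zpow_natCast, ← zpow_add₀ (hpos p).ne']
        simp
      set δ : ℝ := (2 : ℝ) ^ (-(ε / 2 * k)) with hδ
      have hδ0 : 0 < δ := Real.rpow_pos_of_pos (by norm_num) _
      have e1 : ∀ i ∈ (hfin2 u v u' v' (2 ^ k)).toFinset,
          volume {ξ : ℝ | |ξ| ≤ n ∧ |(i.1.1 : ℝ) * ξ + i.1.2| ≤
            (H2 i.1 : ℝ) * ww u v u' v' i.1 * δ * PJ} *
          μ {η : ZHat | ∀ p ∈ V, η p ∈ (Set.univ : Set (@PadicInt p.1 ⟨p.2⟩)) ∧
            lP p i.1.1 i.1.2 (η p) ≤ (p : ℝ) ^ (-(j p : ℤ))} ≤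
          ENNReal.ofReal ((μ Set.univ).toReal * ((8 * n + 8) * δ) * ww u v u' v' i.1) := by
        intro i _
        have hH := H2_pos i.2.1
        have hH0 : (0 : ℝ) < (H2 i.1 : ℝ) := by exact_mod_cast hH
        have hw := ww_nonneg u v u' v' i.1
        have h1 := vol_lin i.1.1 i.1.2 n ((H2 i.1 : ℝ) * ww u v u' v' i.1 * δ * PJ) (by positivity)
          hH
        have h2 := hlin μ V i.1.1 i.1.2 i.2.1 j
        have h3 : {η : ZHat | ∀ p ∈ V, η p ∈ (Set.univ : Set (@PadicInt p.1 ⟨p.2⟩)) ∧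
            lP p i.1.1 i.1.2 (η p) ≤ (p : ℝ) ^ (-(j p : ℤ))} =
            {η : ZHat | ∀ p ∈ V, lP p i.1.1 i.1.2 (η p) ≤ (p : ℝ) ^ (-(j p : ℤ))} := by
          ext η
          simp
        rw [h3]
        refine (mul_le_mul' h1 h2).trans ?_
        rw [← ENNReal.ofReal_toReal (measure_ne_top μ Set.univ), ← ENNReal.ofReal_mul
          ENNReal.toReal_nonneg, ← ENNReal.ofReal_mul (by positivity), ENNReal.toReal_ofReal
          ENNReal.toReal_nonneg]
        refine ENNReal.ofReal_le_ofReal (le_of_eq ?_)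
        change (8 * (n : ℝ) + 8) * ((H2 i.1 : ℝ) * ww u v u' v' i.1 * δ * PJ) / (H2 i.1 : ℝ) *
          ((μ Set.univ).toReal * PI) = _
        have e2 : (8 * (n : ℝ) + 8) * ((H2 i.1 : ℝ) * ww u v u' v' i.1 * δ * PJ) / (H2 i.1 : ℝ) =
            (8 * n + 8) * (ww u v u' v' i.1 * δ * PJ) := by
          field_simp
        rw [e2]
        calc (8 * (n : ℝ) + 8) * (ww u v u' v' i.1 * δ * PJ) * ((μ Set.univ).toReal * PI)
            = (μ Set.univ).toReal * ((8 * n + 8) * δ) * ww u v u' v' i.1 * (PJ * PI) := by ring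
          _ = _ := by rw [hPIJ, mul_one]
      refine (Finset.sum_le_sum e1).trans ?_
      have hm0 : (0 : ℝ) ≤ (μ Set.univ).toReal := ENNReal.toReal_nonneg
      rw [← ENNReal.ofReal_sum_of_nonneg (fun i _ => by
        have := ww_nonneg u v u' v' i.1
        positivity), ← Finset.mul_sum]
      refine ENNReal.ofReal_le_ofReal ?_
      have e3 := hsum (2 ^ k) Nat.one_le_two_pow
      have e4 : (((2 ^ k : ℕ) : ℝ)) ^ (ε / 4) = (2 : ℝ) ^ (ε / 4 * k) := by
        push_cast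
        rw [← Real.rpow_natCast, ← Real.rpow_mul (by norm_num)]
        congr 1
        ring
      have e5 : δ * (2 : ℝ) ^ (ε / 4 * k) = (2 : ℝ) ^ (-(ε / 2 * k / 2)) := by
        rw [hδ, ← Real.rpow_add (by norm_num)]
        congr 1
        ring
      calc (μ Set.univ).toReal * ((8 * n + 8) * δ) * _
          ≤ (μ Set.univ).toReal * ((8 * n + 8) * δ) * (C * (((2 ^ k : ℕ) : ℝ)) ^ (ε / 4)) :=
            mul_le_mul_of_nonneg_left e3 (by positivity)
        _ = (μ Set.univ).toReal * ((8 * n + 8) * C) * (δ * (2 : ℝ) ^ (ε / 4 * k)) := by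
            rw [e4]
            ring
        _ = _ := by rw [e5])
  filter_upwards [key] with w hw
  obtain ⟨n, hn⟩ := exists_nat_ge |w.1|
  have h1 := hw ⟨n, hn, fun _ _ => Set.mem_univ _⟩
  refine ((h1.image Subtype.val).union (bx 1).finite_toSet).subset ?_
  rintro x ⟨hx1, hx2, hx3, hx4⟩
  rcases Nat.lt_or_ge 1 (H2 x) with h2 | h2
  · left
    refine ⟨⟨x, hx1, hx2, hx3⟩, ⟨H2_pos hx1, ?_⟩, rfl⟩
    change |(x.1 : ℝ) * w.1 + x.2| * ∏ p ∈ V, lP p x.1 x.2 (w.2 p) ≤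
      (H2 x : ℝ) * ww u v u' v' x * (2 * (H2 x : ℝ)) ^ (-(ε / 2))
    refine hx4.trans ?_
    have hH : (2 : ℝ) ≤ (H2 x : ℝ) := by exact_mod_cast h2
    have hH0 : (0 : ℝ) < (H2 x : ℝ) := by linarith
    have e1 : (H2 x : ℝ) ^ (1 - ε) = (H2 x : ℝ) * (H2 x : ℝ) ^ (-ε) := by
      rw [sub_eq_add_neg, Real.rpow_add hH0, Real.rpow_one]
    have e2 : (H2 x : ℝ) ^ (-ε) = ((H2 x : ℝ) * (H2 x : ℝ)) ^ (-(ε / 2)) := by
      rw [Real.mul_rpow hH0.le hH0.le, ← Real.rpow_add hH0]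
      congr 1
      ring
    have e3 : ((H2 x : ℝ) * (H2 x : ℝ)) ^ (-(ε / 2)) ≤ (2 * (H2 x : ℝ)) ^ (-(ε / 2)) :=
      Real.rpow_le_rpow_of_nonpos (by positivity)
        (mul_le_mul_of_nonneg_right hH hH0.le) (by linarith)
    rw [e1, e2]
    have hw0 := ww_nonneg u v u' v' x
    calc 1 / ((Rd (Lv u v x).natAbs : ℝ) * Rd (Lv u' v' x).natAbs) *
          ((H2 x : ℝ) * ((H2 x : ℝ) * (H2 x : ℝ)) ^ (-(ε / 2)))
        = (H2 x : ℝ) * ww u v u' v' x * ((H2 x : ℝ) * (H2 x : ℝ)) ^ (-(ε / 2)) := by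
          unfold ww
          ring
      _ ≤ _ := mul_le_mul_of_nonneg_left e3 (by positivity)
  · right
    exact mem_coe.2 (mem_bx.2 h2)

end Q26.QP
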