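import Mathlib
import Pool.Agent.Q273.QP.Stm

/-! # Project QP (helper273), job NLOC: square roots of `n` modulo `a` in an interval -/

set_option autoImplicit false

namespace Pool.Agent.Q26.QP

open Finset Q273.QP

/-- pairwise congruent integers in an interval -/
theorem card_cls (m : ℕ) (hm : 1 ≤ m) (S : Finset ℤ) (y T : ℝ) (hT : 0 ≤ T)
    (h1 : ∀ b ∈ S, |y - b| ≤ T) (h2 : ∀ b ∈ S, ∀ b' ∈ S, (m : ℤ) ∣ b - b') :
    (S.card : ℝ) ≤ 2 * T / m + 1 := by
  classical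
  rcases S.eq_empty_or_nonempty with h0 | h0
  · rw [h0, card_empty, Nat.cast_zero]
    positivity
  have hu := S.min'_mem h0
  have hv := S.max'_mem h0
  have hmin : ∀ b ∈ S, S.min' h0 ≤ b := fun b hb => S.min'_le b hb
  have hmax : ∀ b ∈ S, b ≤ S.max' h0 := fun b hb => S.le_max' b hb
  generalize S.min' h0 = u at hu hmin
  generalize S.max' h0 = v at hv hmax
  have hmz : (0 : ℤ) < m := by exact_mod_cast hm
  obtain ⟨k, hk⟩ := h2 v hv u hu
  have hk0 : 0 ≤ k := by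
    by_contra hneg
    push Not at hneg
    have h3 := hmin v hv
    nlinarith
  have h3 : S ⊆ (range (k.toNat + 1)).image (fun j : ℕ => u + (m : ℤ) * j) := by
    intro b hb
    obtain ⟨j, hj⟩ := h2 b hb u hu
    have hj0 : 0 ≤ j := by
      by_contra hneg
      push Not at hneg
      have h3 := hmin b hb
      nlinarith
    have hjk : j ≤ k := by
      by_contra hneg
      push Not at hneg
      have h3 := hmax b hb
      nlinarith
    rw [mem_image]
    refine ⟨j.toNat, ?_, ?_⟩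
    · rw [mem_range]
      omega
    · rw [Int.toNat_of_nonneg hj0, ← hj]
      ring
  have h4 := (card_le_card h3).trans card_image_le
  rw [card_range] at h4
  have h5 : (S.card : ℝ) ≤ ((k.toNat : ℕ) : ℝ) + 1 := by exact_mod_cast h4
  have h6 : ((k.toNat : ℕ) : ℝ) = (k : ℝ) := by
    have : ((k.toNat : ℕ) : ℤ) = k := Int.toNat_of_nonneg hk0
    exact_mod_cast congrArg (fun z : ℤ => (z : ℝ)) this
  have hmr : (0 : ℝ) < m := by exact_mod_cast hm
  have h7 : (k : ℝ) ≤ 2 * T / m := by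
    rw [le_div_iff₀ hmr]
    have h8 : (v : ℝ) - u = m * k := by exact_mod_cast congrArg (fun z : ℤ => (z : ℝ)) hk
    have h9 := abs_le.1 (h1 u hu)
    have h10 := abs_le.1 (h1 v hv)
    linarith
  linarith

/-- powers dividing the square root of the largest square -/
theorem pow_dvd_cf {N p k : ℕ} (hN : N ≠ 0) (hp : p.Prime) (h : p ^ (2 * k) ∣ N) : p ^ k ∣ cf N := by
  have h1 : 2 * k ≤ N.factorization p := (hp.pow_dvd_iff_le_factorization hN).1 h
  rcases Nat.eq_zero_or_pos k with h0 | h0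
  · rw [h0, pow_zero]
    exact one_dvd _
  have hmem : p ∈ N.primeFactors := by
    rw [← Nat.support_factorization, Finsupp.mem_support_iff]
    omega
  refine (pow_dvd_pow p (show k ≤ N.factorization p / 2 by omega)).trans ?_
  exact Finset.dvd_prod_of_mem (fun p => p ^ (N.factorization p / 2)) hmem

theorem dvd_two_cf {g N : ℕ} (hN : N ≠ 0) (h : g * g ∣ 4 * N) : g ∣ 2 * cf N := by
  rw [Nat.dvd_iff_prime_pow_dvd_dvd]
  intro p k hp hk
  have h1 : p ^ (2 * k) ∣ 4 * N := by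
    have h2 : p ^ k * p ^ k ∣ 4 * N := (mul_dvd_mul hk hk).trans h
    rwa [← pow_add, ← two_mul] at h2
  rcases eq_or_ne p 2 with rfl | hp2
  · rcases Nat.eq_zero_or_pos k with h0 | h0
    · rw [h0, pow_zero]
      exact one_dvd _
    obtain ⟨j, rfl⟩ : ∃ j, k = j + 1 := ⟨k - 1, by omega⟩
    have h2 : 2 ^ (2 * j) ∣ N := by
      have h3 : 2 ^ (2 * (j + 1)) = 4 * 2 ^ (2 * j) := by ring
      rw [h3] at h1
      exact Nat.dvd_of_mul_dvd_mul_left (by norm_num) h1
    have h3 := pow_dvd_cf hN hp h2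
    rw [pow_succ, mul_comm]
    exact mul_dvd_mul_left 2 h3
  · have h2 : Nat.Coprime (p ^ (2 * k)) 4 := by
      have : Nat.Coprime p 2 := (Nat.coprime_primes hp Nat.prime_two).2 hp2
      have h3 : Nat.Coprime (p ^ (2 * k)) (2 ^ 2) := this.pow _ _
      exact h3
    have h3 := h2.dvd_of_dvd_mul_left h1
    exact (pow_dvd_cf hN hp h3).trans (dvd_mul_left _ _)

/-- square roots of `n` modulo `a` in an interval -/
theorem nloc : S_NLOC := by
  classical
  intro a L n W B y T ha hn hT hW hB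
  have ha0 : (0 : ℝ) < a := by exact_mod_cast ha
  have hterm : ∀ a₁ : ℕ, 0 ≤ 2 * T * (Nat.gcd a₁ (a / a₁) : ℝ) / a + 1 := fun a₁ => by positivity
  rcases B.eq_empty_or_nonempty with h0 | ⟨b0, hb0⟩
  · rw [h0, card_empty, Nat.cast_zero]
    exact Finset.sum_nonneg fun a₁ _ => hterm a₁
  obtain ⟨hd0, -, hW0⟩ := hB b0 hb0
  have key : ∀ b ∈ B, ∀ a1 : ℕ, Int.gcd a (b - b0) = a1 → 0 < a1 ∧ 0 < a / a1 ∧ a1 * (a / a1) = a ∧
      (a1 : ℤ) ∣ b - b0 ∧ ((a / a1 : ℕ) : ℤ) ∣ b + b0 := by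
    intro b hb a1 hb2
    have hda : a1 ∣ a := by
      rw [← hb2]
      have := Int.gcd_dvd_left (a : ℤ) (b - b0)
      exact_mod_cast this
    obtain ⟨a2, ha2⟩ := hda
    have ha1p : 0 < a1 := Nat.pos_of_ne_zero (by rintro rfl; rw [zero_mul] at ha2; omega)
    have ha2p : 0 < a2 := Nat.pos_of_ne_zero (by rintro rfl; rw [mul_zero] at ha2; omega)
    have hdiv : a / a1 = a2 := by rw [ha2, Nat.mul_div_cancel_left _ ha1p]
    rw [hdiv]
    have h1 : (a1 : ℤ) ∣ b - b0 := by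
      rw [← hb2]; exact Int.gcd_dvd_right _ _
    refine ⟨ha1p, ha2p, ha2.symm, h1, ?_⟩
    have h2 : (a : ℤ) ∣ (b - b0) * (b + b0) := by
      have := dvd_sub (hB b hb).1 hd0
      have e : b ^ 2 - n - (b0 ^ 2 - n) = (b - b0) * (b + b0) := by ring
      rwa [e] at this
    obtain ⟨c, hc⟩ := h1
    have h3 : (a1 : ℤ) * a2 ∣ a1 * (c * (b + b0)) := by
      have : ((a : ℕ) : ℤ) = (a1 : ℤ) * a2 := by rw [ha2]; push_cast; ring
      rw [← this]
      rw [hc] at h2
      have e : (a1 : ℤ) * c * (b + b0) = a1 * (c * (b + b0)) := by ring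
      rwa [e] at h2
    have h4 : (a2 : ℤ) ∣ c * (b + b0) :=
      Int.dvd_of_mul_dvd_mul_left (by exact_mod_cast ha1p.ne') h3
    have h5 : IsCoprime (a2 : ℤ) c := by
      rw [Int.isCoprime_iff_gcd_eq_one]
      have h6 : Int.gcd (a : ℤ) (b - b0) = a1 * Int.gcd a2 c := by
        rw [hc, ha2]; push_cast
        rw [Int.gcd_mul_left]; simp
      rw [hb2] at h6
      have : a1 * 1 = a1 * Int.gcd a2 c := by rw [mul_one]; exact h6
      exact (Nat.eq_of_mul_eq_mul_left ha1p this).symm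
    exact h5.dvd_of_dvd_mul_left h4
  have hmaps : ∀ b ∈ B, Int.gcd a (b - b0) ∈
      a.divisors.filter (fun a₁ => Nat.gcd a₁ (a / a₁) ∣ 2 * cf n.natAbs ∧
        ∀ p ∈ W, ¬ p ^ (L + 1) ∣ Nat.gcd a₁ (a / a₁)) := by
    intro b hb
    obtain ⟨h1, h2, h3, h4, h5⟩ := key b hb _ rfl
    generalize Int.gcd a (b - b0) = a1 at h1 h2 h3 h4 h5
    rw [mem_filter, Nat.mem_divisors]
    generalize a / a1 = a2 at h2 h3 h5 ⊢
    have hg1 := Nat.gcd_dvd_left a1 a2
    have hg2 := Nat.gcd_dvd_right a1 a2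
    have hgb : ((Nat.gcd a1 a2 : ℕ) : ℤ) ∣ 2 * b0 := by
      have e := dvd_sub ((Int.natCast_dvd_natCast.2 hg2).trans h5)
        ((Int.natCast_dvd_natCast.2 hg1).trans h4)
      have e2 : b + b0 - (b - b0) = 2 * b0 := by ring
      rwa [e2] at e
    have hgg : Nat.gcd a1 a2 * Nat.gcd a1 a2 ∣ a := by
      rw [← h3]
      exact mul_dvd_mul hg1 hg2
    refine ⟨⟨⟨a2, h3.symm⟩, by omega⟩, ?_, ?_⟩
    · apply dvd_two_cf (Int.natAbs_ne_zero.2 hn)
      have h6 : ((Nat.gcd a1 a2 : ℕ) : ℤ) * (Nat.gcd a1 a2 : ℕ) ∣ b0 ^ 2 - n := by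
        refine dvd_trans ?_ hd0
        exact_mod_cast hgg
      have h7 : ((Nat.gcd a1 a2 : ℕ) : ℤ) * (Nat.gcd a1 a2 : ℕ) ∣ 2 * b0 * (2 * b0) :=
        mul_dvd_mul hgb hgb
      have h8 := dvd_sub h7 (h6.mul_left 4)
      have e : 2 * b0 * (2 * b0) - 4 * (b0 ^ 2 - n) = 4 * n := by ring
      rw [e] at h8
      have h9 := Int.natAbs_dvd_natAbs.2 h8
      rw [Int.natAbs_mul, Int.natAbs_mul, Int.natAbs_natCast] at h9
      exact h9
    · intro p hp hpg
      have hpp := hW p hp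
      apply hW0 p hp
      refine ⟨?_, ?_⟩
      · have h6 : a1 ∣ a := ⟨a2, h3.symm⟩
        exact (pow_dvd_pow p (Nat.le_succ L)).trans (hpg.trans (hg1.trans h6))
      · have h6 : ((p : ℤ) ^ (L + 1)) ∣ 2 * b0 := by
          refine dvd_trans ?_ hgb
          exact_mod_cast hpg
        rcases eq_or_ne p 2 with rfl | hp2
        · have h7 : (2 : ℤ) * 2 ^ L ∣ 2 * b0 := by
            have e : (2 : ℤ) * 2 ^ L = ((2 : ℕ) : ℤ) ^ (L + 1) := by
              rw [pow_succ]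
              push_cast
              ring
            rw [e]
            exact h6
          exact_mod_cast Int.dvd_of_mul_dvd_mul_left (by norm_num) h7
        · have h7 : IsCoprime ((p : ℤ) ^ (L + 1)) 2 := by
            apply IsCoprime.pow_left
            rw [Int.isCoprime_iff_gcd_eq_one]
            exact (Nat.coprime_primes hpp Nat.prime_two).2 hp2
          exact (pow_dvd_pow (p : ℤ) (Nat.le_succ L)).trans (h7.dvd_of_dvd_mul_left h6)
  rw [card_eq_sum_card_fiberwise (s := B) (f := fun b => Int.gcd a (b - b0)) hmaps]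
  push_cast
  refine Finset.sum_le_sum fun a1 ha1 => ?_
  rcases (B.filter (fun b => Int.gcd a (b - b0) = a1)).eq_empty_or_nonempty with h0 | ⟨b1, hb1⟩
  · rw [h0, card_empty, Nat.cast_zero]
    exact hterm a1
  obtain ⟨hb1B, hb1g⟩ := mem_filter.1 hb1
  obtain ⟨h1, h2, h3, -, -⟩ := key b1 hb1B a1 hb1g
  have hl := Nat.gcd_mul_lcm a1 (a / a1)
  rw [h3] at hl
  have hgp : 0 < Nat.gcd a1 (a / a1) := Nat.gcd_pos_of_pos_left _ h1
  have hlp : 0 < Nat.lcm a1 (a / a1) := Nat.lcm_pos h1 h2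
  have hcl := card_cls (Nat.lcm a1 (a / a1)) hlp (B.filter (fun b => Int.gcd a (b - b0) = a1)) y T hT
    (fun b hb => (hB b (mem_filter.1 hb).1).2.1) (fun b hb b' hb' => by
      obtain ⟨hbB, hbg⟩ := mem_filter.1 hb
      obtain ⟨hbB', hbg'⟩ := mem_filter.1 hb'
      obtain ⟨-, -, -, k4, k5⟩ := key b hbB a1 hbg
      obtain ⟨-, -, -, k4', k5'⟩ := key b' hbB' a1 hbg'
      have h3 : (a1 : ℤ) ∣ b - b' := by
        have := dvd_sub k4 k4'
        have e : b - b0 - (b' - b0) = b - b' := by ring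
        rwa [e] at this
      have h4 : ((a / a1 : ℕ) : ℤ) ∣ b - b' := by
        have := dvd_sub k5 k5'
        have e : b + b0 - (b' + b0) = b - b' := by ring
        rwa [e] at this
      rw [Int.natCast_dvd] at h3 h4 ⊢
      exact Nat.lcm_dvd h3 h4)
  have hgr : (0 : ℝ) < (Nat.gcd a1 (a / a1) : ℕ) := by exact_mod_cast hgp
  have hlr : (0 : ℝ) < (Nat.lcm a1 (a / a1) : ℕ) := by exact_mod_cast hlp
  have har : (a : ℝ) = (Nat.gcd a1 (a / a1) : ℕ) * (Nat.lcm a1 (a / a1) : ℕ) := by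
    exact_mod_cast hl.symm
  refine hcl.trans (le_of_eq ?_)
  generalize ((Nat.gcd a1 (a / a1) : ℕ) : ℝ) = u at hgr har
  generalize ((Nat.lcm a1 (a / a1) : ℕ) : ℝ) = v at hlr har
  rw [har]
  congr 1
  rw [div_eq_div_iff hlr.ne' (mul_pos hgr hlr).ne']
  ring

end Pool.Agent.Q26.QP
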