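import Mathlib
import Pool.Agent.Q273.QP.Stm
import Pool.Agent.H510R2.Div
import Pool.Agent.H813R3.Voj.Rad

/-! # Project QP (helper273), jobs SUMF and SUMRAD -/

set_option autoImplicit false

namespace Pool.Agent.Q26.QP

open Finset Q273.QP

theorem sumrad : S_SUMRAD := by
  intro ε hε
  obtain ⟨C1, hC1, h1⟩ := Pool.Agent.H510R2.divisor_bound (ε / 2) (by linarith)
  obtain ⟨C2, hC2, h2⟩ := Pool.Agent.H813R3.Voj.sum_g_le (δ := ε / 2) (by linarith)
  refine ⟨C1 * C2, by positivity, fun X hX => ?_⟩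
  have hX0 : (0 : ℝ) < X := by exact_mod_cast hX
  have h3 : ∀ a ∈ Finset.Icc 1 X, (a.divisors.card : ℝ) / Rd a ≤
      C1 * (X : ℝ) ^ ε * Pool.Agent.H813R3.Voj.g (ε / 2) a := by
    intro a ha
    rw [mem_Icc] at ha
    have ha0 : (0 : ℝ) < a := by exact_mod_cast ha.1
    have haX : (a : ℝ) ≤ X := by exact_mod_cast ha.2
    have hrd : (0 : ℝ) < Pool.Agent.H813R3.Voj.rd a := by
      exact_mod_cast Pool.Agent.H813R3.Voj.rd_pos a
    have e1 : (Rd a : ℝ) = Pool.Agent.H813R3.Voj.rd a := rfl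
    unfold Pool.Agent.H813R3.Voj.g
    rw [e1, ← mul_div_assoc, div_le_div_iff_of_pos_right hrd]
    have h4 : (a : ℝ) ^ (ε / 2) ≤ (X : ℝ) ^ ε * (a : ℝ) ^ (-(ε / 2)) := by
      have h5 : (a : ℝ) ^ (ε / 2) = (a : ℝ) ^ ε * (a : ℝ) ^ (-(ε / 2)) := by
        rw [← Real.rpow_add ha0]
        congr 1
        ring
      rw [h5]
      exact mul_le_mul_of_nonneg_right (Real.rpow_le_rpow ha0.le haX hε.le) (by positivity)
    calc (a.divisors.card : ℝ) ≤ C1 * (a : ℝ) ^ (ε / 2) := h1 a ha.1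
      _ ≤ C1 * ((X : ℝ) ^ ε * (a : ℝ) ^ (-(ε / 2))) := mul_le_mul_of_nonneg_left h4 hC1.le
      _ = C1 * (X : ℝ) ^ ε * (a : ℝ) ^ (-(ε / 2)) := by ring
  refine (Finset.sum_le_sum h3).trans ?_
  rw [← Finset.mul_sum]
  calc C1 * (X : ℝ) ^ ε * ∑ n ∈ Finset.Icc 1 X, Pool.Agent.H813R3.Voj.g (ε / 2) n ≤
        C1 * (X : ℝ) ^ ε * C2 := mul_le_mul_of_nonneg_left (h2 X) (by positivity)
    _ = C1 * C2 * (X : ℝ) ^ ε := by ring

/-! ### The sum over the conductors -/

/-- the part of `f` composed of the primes of `W` -/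
def wp (W : Finset ℕ) (f : ℕ) : ℕ := ∏ p ∈ W, p ^ f.factorization p

/-- the other part -/
def mp (W : Finset ℕ) (f : ℕ) : ℕ := ∏ p ∈ f.primeFactors \ W, p ^ f.factorization p

theorem wp_mp (W : Finset ℕ) {f : ℕ} (hf : f ≠ 0) : wp W f * mp W f = f := by
  classical
  have h1 : f = ∏ p ∈ f.primeFactors, p ^ f.factorization p := by
    conv_lhs => rw [← Nat.prod_factorization_pow_eq_self hf]
    rfl
  have h2 : wp W f = ∏ p ∈ f.primeFactors ∩ W, p ^ f.factorization p := by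
    unfold wp
    symm
    refine Finset.prod_subset inter_subset_right fun p hp hp2 => ?_
    have h3 : p ∉ f.primeFactors := fun h => hp2 (mem_inter.2 ⟨h, hp⟩)
    have h4 : f.factorization p = 0 := by
      rw [← Nat.support_factorization, Finsupp.mem_support_iff, not_not] at h3
      exact h3
    rw [h4, pow_zero]
  conv_rhs => rw [h1]
  rw [h2]
  unfold mp
  exact Finset.prod_inter_mul_prod_sdiff _ _ _

theorem mp_pos (W : Finset ℕ) {f : ℕ} (hf : f ≠ 0) : 0 < mp W f := by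
  apply Nat.pos_of_ne_zero
  intro h
  apply hf
  rw [← wp_mp W hf, h, mul_zero]

theorem wp_pos (W : Finset ℕ) {f : ℕ} (hf : f ≠ 0) : 0 < wp W f := by
  apply Nat.pos_of_ne_zero
  intro h
  apply hf
  rw [← wp_mp W hf, h, zero_mul]

theorem mp_wp_coprime {W : Finset ℕ} (hW : ∀ p ∈ W, p.Prime) (g f : ℕ) :
    Nat.Coprime (mp W g) (wp W f) := by
  classical
  unfold mp wp
  rw [Nat.coprime_prod_left_iff]
  intro p hp
  rw [Nat.coprime_prod_right_iff]
  intro q hq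
  rw [mem_sdiff] at hp
  apply Nat.Coprime.pow
  rw [Nat.coprime_primes (Nat.prime_of_mem_primeFactors hp.1) (hW q hq)]
  rintro rfl
  exact hp.2 hq

theorem mp_dvd {W : Finset ℕ} (hW : ∀ p ∈ W, p.Prime) {g f : ℕ} (hg : g ≠ 0) (hf : f ≠ 0)
    (h : g ∣ 2 * f) : mp W g ∣ 2 * mp W f := by
  have h1 : mp W g ∣ wp W f * (2 * mp W f) := by
    have h2 : mp W g ∣ g := ⟨wp W g, by rw [mul_comm]; exact (wp_mp W hg).symm⟩
    have h3 : wp W f * (2 * mp W f) = 2 * f := by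
      conv_rhs => rw [← wp_mp W hf]
      ring
    rw [h3]
    exact h2.trans h
  exact (mp_wp_coprime hW g f).dvd_of_dvd_mul_left h1

/-- the sum over the multiples -/
theorem sum_inv_le (k Y : ℕ) (hk : 1 ≤ k) :
    ∑ m ∈ (Finset.Icc 1 Y).filter (fun m => k ∣ 2 * m), (1 : ℝ) / m ≤
      2 / k * (1 + Real.log (2 * Y)) := by
  classical
  have hk0 : (0 : ℝ) < k := by exact_mod_cast hk
  have h1 : ∑ m ∈ (Finset.Icc 1 Y).filter (fun m => k ∣ 2 * m), (1 : ℝ) / m =
      ∑ m ∈ (Finset.Icc 1 Y).filter (fun m => k ∣ 2 * m),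
        (fun j : ℕ => 2 / k * (1 / (j : ℝ))) (2 * m / k) := by
    refine Finset.sum_congr rfl fun m hm => ?_
    rw [mem_filter, mem_Icc] at hm
    obtain ⟨⟨hm1, hm2⟩, j, hj⟩ := hm
    have hj1 : 2 * m / k = j := by rw [hj, Nat.mul_div_cancel_left _ hk]
    have hj0 : 0 < j := Nat.pos_of_ne_zero (by rintro rfl; omega)
    have hjr : (0 : ℝ) < j := by exact_mod_cast hj0
    have hmr : (0 : ℝ) < m := by exact_mod_cast hm1
    have hjm : (2 : ℝ) * m = k * j := by exact_mod_cast hj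
    beta_reduce
    rw [hj1]
    field_simp
    linarith
  have hinj : Set.InjOn (fun m => 2 * m / k)
      (((Finset.Icc 1 Y).filter (fun m => k ∣ 2 * m) : Finset ℕ) : Set ℕ) := by
    intro m hm m' hm' he
    obtain ⟨-, j, hj⟩ := mem_filter.1 (mem_coe.1 hm)
    obtain ⟨-, j', hj'⟩ := mem_filter.1 (mem_coe.1 hm')
    have h2 : 2 * m / k = j := by rw [hj, Nat.mul_div_cancel_left _ hk]
    have h3 : 2 * m' / k = j' := by rw [hj', Nat.mul_div_cancel_left _ hk]
    have h4 : j = j' := by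
      rw [← h2, ← h3]
      exact he
    rw [h4] at hj
    omega
  rw [h1, ← Finset.sum_image (f := fun j : ℕ => 2 / (k : ℝ) * (1 / (j : ℝ))) hinj]
  have h2 : ((Finset.Icc 1 Y).filter (fun m => k ∣ 2 * m)).image (fun m => 2 * m / k) ⊆
      Finset.Icc 1 (2 * Y) := by
    intro j hj
    obtain ⟨m, hm, rfl⟩ := mem_image.1 hj
    rw [mem_filter, mem_Icc] at hm
    obtain ⟨⟨hm1, hm2⟩, i, hi⟩ := hm
    have hj1 : 2 * m / k = i := by rw [hi, Nat.mul_div_cancel_left _ hk]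
    have hj0 : 0 < i := Nat.pos_of_ne_zero (by rintro rfl; omega)
    rw [hj1, mem_Icc]
    refine ⟨hj0, ?_⟩
    have : i ≤ k * i := Nat.le_mul_of_pos_left i hk
    omega
  refine (Finset.sum_le_sum_of_subset_of_nonneg h2 fun j _ _ => by positivity).trans ?_
  rw [← Finset.mul_sum]
  refine mul_le_mul_of_nonneg_left ?_ (by positivity)
  have h3 := harmonic_le_one_add_log (2 * Y)
  rw [harmonic_eq_sum_Icc] at h3
  push_cast at h3
  simpa [one_div] using h3

theorem log_le' {η : ℝ} (hη : 0 < η) (Y : ℕ) (hY : 1 ≤ Y) :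
    1 + (Nat.log 2 Y : ℝ) ≤ (2 + 2 / η) * (Y : ℝ) ^ η ∧
    1 + Real.log (2 * Y) ≤ (2 + 2 / η) * (Y : ℝ) ^ η := by
  have hY1 : (1 : ℝ) ≤ Y := by exact_mod_cast hY
  have h1 : (1 : ℝ) ≤ (Y : ℝ) ^ η := Real.one_le_rpow hY1 hη.le
  have h2 : Real.log Y ≤ (Y : ℝ) ^ η / η := Real.log_le_rpow_div (by linarith) hη
  have h3 : (Nat.log 2 Y : ℝ) ≤ Real.log Y / Real.log 2 := by
    have := Real.natLog_le_logb Y 2
    exact this
  have hl2 : (1 : ℝ) / 2 ≤ Real.log 2 := by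
    have := Real.log_two_gt_d9
    linarith
  have hl2' : Real.log 2 ≤ 1 := by
    have := Real.log_two_lt_d9
    linarith
  have h4 : 0 ≤ Real.log Y := Real.log_nonneg hY1
  have h5 : Real.log Y / Real.log 2 ≤ 2 * Real.log Y := by
    rw [div_le_iff₀ (by linarith)]
    nlinarith
  have h6 : (2 + 2 / η) * (Y : ℝ) ^ η = 2 * (Y : ℝ) ^ η + 2 * ((Y : ℝ) ^ η / η) := by ring
  have h7 : 0 ≤ (Y : ℝ) ^ η / η := by positivity
  refine ⟨by rw [h6]; linarith, ?_⟩
  rw [h6, Real.log_mul (by norm_num) (by linarith)]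
  linarith

theorem sumf : S_SUMF := by
  classical
  intro W L ε hε hW
  set η : ℝ := ε / (W.card + 1) with hη
  have hWc : (0 : ℝ) < (W.card : ℝ) + 1 := by positivity
  have hη0 : 0 < η := by positivity
  refine ⟨(2 + 2 / η) ^ (W.card + 1) * (2 * (∏ p ∈ W, p ^ L : ℕ)), ?_, ?_⟩
  · have : 0 < ∏ p ∈ W, p ^ L := Finset.prod_pos fun p hp => pow_pos (hW p hp).pos L
    have h1 : (0 : ℝ) < (∏ p ∈ W, p ^ L : ℕ) := by exact_mod_cast this
    positivity
  intro g Y hg hY hgL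
  have hg0 : g ≠ 0 := by omega
  have hgr : (0 : ℝ) < g := by exact_mod_cast hg
  have hmg : 1 ≤ mp W g := mp_pos W hg0
  have hmgr : (0 : ℝ) < mp W g := by exact_mod_cast hmg
  -- the size of the `W`-part of `g`
  have hwg : wp W g ≤ ∏ p ∈ W, p ^ L := by
    unfold wp
    refine Finset.prod_le_prod' fun p hp => ?_
    refine Nat.pow_le_pow_right (hW p hp).pos ?_
    by_contra hlt
    push Not at hlt
    exact hgL p hp (((hW p hp).pow_dvd_iff_le_factorization hg0).2 hlt.le)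
  have hginv : 1 / (mp W g : ℝ) ≤ (∏ p ∈ W, p ^ L : ℕ) / (g : ℝ) := by
    rw [div_le_div_iff₀ hmgr hgr, one_mul]
    have h1 : g ≤ (∏ p ∈ W, p ^ L) * mp W g := by
      conv_lhs => rw [← wp_mp W hg0]
      exact Nat.mul_le_mul_right _ hwg
    exact_mod_cast h1
  -- the terms
  have hterm : ∀ f ∈ (Finset.Icc 1 Y).filter (fun f => g ∣ 2 * f),
      ((∏ p ∈ W, p ^ f.factorization p : ℕ) : ℝ) / f =
      (fun x : (W → ℕ) × ℕ => (1 : ℝ) / x.2) (fun p => f.factorization p, mp W f) := by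
    intro f hf
    rw [mem_filter, mem_Icc] at hf
    have hf0 : f ≠ 0 := by omega
    have h1 : (0 : ℝ) < mp W f := by exact_mod_cast mp_pos W hf0
    have h2 : (0 : ℝ) < wp W f := by exact_mod_cast wp_pos W hf0
    have h3 : (f : ℝ) = wp W f * mp W f := by exact_mod_cast (wp_mp W hf0).symm
    change (wp W f : ℝ) / f = 1 / (mp W f : ℝ)
    rw [h3]
    field_simp
  rw [Finset.sum_congr rfl hterm]
  have hinj : Set.InjOn (fun f : ℕ => ((fun p => f.factorization p, mp W f) : (W → ℕ) × ℕ))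
      (((Finset.Icc 1 Y).filter (fun f => g ∣ 2 * f) : Finset ℕ) : Set ℕ) := by
    intro f hf f' hf' he
    have hf1 := (mem_Icc.1 (mem_filter.1 (mem_coe.1 hf)).1).1
    have hf1' := (mem_Icc.1 (mem_filter.1 (mem_coe.1 hf')).1).1
    have e1 := congrArg Prod.fst he
    have e2 := congrArg Prod.snd he
    have e3 : wp W f = wp W f' := by
      unfold wp
      refine Finset.prod_congr rfl fun p hp => ?_
      have h5 : f.factorization p = f'.factorization p := congrFun e1 ⟨p, hp⟩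
      rw [h5]
    have e4 : mp W f = mp W f' := e2
    rw [← wp_mp W (show f ≠ 0 by omega), ← wp_mp W (show f' ≠ 0 by omega), e3, e4]
  rw [← Finset.sum_image (f := fun x : (W → ℕ) × ℕ => (1 : ℝ) / x.2) hinj]
  have hsub : ((Finset.Icc 1 Y).filter (fun f => g ∣ 2 * f)).image
      (fun f : ℕ => ((fun p => f.factorization p, mp W f) : (W → ℕ) × ℕ)) ⊆
      (Fintype.piFinset fun _ : W => range (Nat.log 2 Y + 1)) ×ˢ
        ((Finset.Icc 1 Y).filter (fun m => mp W g ∣ 2 * m)) := by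
    intro x hx
    obtain ⟨f, hf, rfl⟩ := mem_image.1 hx
    rw [mem_filter, mem_Icc] at hf
    have hf0 : f ≠ 0 := by omega
    rw [mem_product, Fintype.mem_piFinset, mem_filter, mem_Icc]
    refine ⟨fun p => ?_, ⟨mp_pos W hf0, ?_⟩, mp_dvd hW hg0 hf0 hf.2⟩
    · rw [mem_range]
      have h1 : (p : ℕ) ^ f.factorization p ≤ f := Nat.le_of_dvd (by omega) (Nat.ordProj_dvd f p)
      have h2 : 2 ^ f.factorization p ≤ Y :=
        (Nat.pow_le_pow_left (hW p p.2).two_le _).trans (h1.trans hf.1.2)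
      have h3 := Nat.le_log_of_pow_le (by norm_num) h2
      change f.factorization p < Nat.log 2 Y + 1
      omega
    · have h1 : mp W f ≤ wp W f * mp W f := Nat.le_mul_of_pos_left _ (wp_pos W hf0)
      rw [wp_mp W hf0] at h1
      exact h1.trans hf.1.2
  refine (Finset.sum_le_sum_of_subset_of_nonneg hsub fun x _ _ => by positivity).trans ?_
  rw [Finset.sum_product]
  simp only []
  rw [Finset.sum_const, Fintype.card_piFinset, Finset.prod_const, card_range, nsmul_eq_mul]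
  have hc : (Finset.univ : Finset W).card = W.card := by rw [card_univ, Fintype.card_coe]
  rw [hc]
  obtain ⟨hl1, hl2⟩ := log_le' hη0 Y hY
  have hY1 : (1 : ℝ) ≤ Y := by exact_mod_cast hY
  have hsum := sum_inv_le (mp W g) Y hmg
  have hS0 : (0 : ℝ) ≤ ∑ m ∈ (Finset.Icc 1 Y).filter (fun m => mp W g ∣ 2 * m), (1 : ℝ) / m :=
    Finset.sum_nonneg fun m _ => by positivity
  have hA : (((Nat.log 2 Y + 1) ^ W.card : ℕ) : ℝ) ≤ ((2 + 2 / η) * (Y : ℝ) ^ η) ^ W.card := by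
    push_cast
    refine pow_le_pow_left₀ (by positivity) ?_ _
    linarith
  have hB : ∑ m ∈ (Finset.Icc 1 Y).filter (fun m => mp W g ∣ 2 * m), (1 : ℝ) / m ≤
      2 * ((∏ p ∈ W, p ^ L : ℕ) / (g : ℝ)) * ((2 + 2 / η) * (Y : ℝ) ^ η) := by
    refine hsum.trans ?_
    have hlog : 0 ≤ 1 + Real.log (2 * Y) := by
      have : 0 ≤ Real.log (2 * Y) := Real.log_nonneg (by linarith)
      linarith
    refine mul_le_mul ?_ hl2 hlog (by positivity)
    have : 2 / (mp W g : ℝ) = 2 * (1 / mp W g) := by ring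
    rw [this]
    exact mul_le_mul_of_nonneg_left hginv (by norm_num)
  have hYe : ((Y : ℝ) ^ η) ^ (W.card + 1) = (Y : ℝ) ^ ε := by
    rw [← Real.rpow_natCast, ← Real.rpow_mul (by linarith)]
    congr 1
    rw [hη]
    push_cast
    field_simp
  calc (((Nat.log 2 Y + 1) ^ W.card : ℕ) : ℝ) *
        ∑ m ∈ (Finset.Icc 1 Y).filter (fun m => mp W g ∣ 2 * m), (1 : ℝ) / m
      ≤ ((2 + 2 / η) * (Y : ℝ) ^ η) ^ W.card *
        (2 * ((∏ p ∈ W, p ^ L : ℕ) / (g : ℝ)) * ((2 + 2 / η) * (Y : ℝ) ^ η)) :=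
        mul_le_mul hA hB hS0 (by positivity)
    _ = (2 + 2 / η) ^ (W.card + 1) * (2 * (∏ p ∈ W, p ^ L : ℕ)) * ((Y : ℝ) ^ η) ^ (W.card + 1) / g := by
        rw [mul_pow]
        ring
    _ = _ := by rw [hYe]

end Pool.Agent.Q26.QP
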